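import Pool.Agent.Lib.PDT.Bridge2

/-!
# MP_bbc3d7_al: noetherian representations of subgroups of PD(3)-groups

The definitions are in `PDT/Stmt`: `PDS.IsPD 3 G` is the definition of the problem (`G` is of type FP,
`H^i(G; ℤ[G]) = 0` for `i ≠ 3` and `H^3(G; ℤ[G]) ≅ ℤ`), `PDS.FPRes H` the type of resolutions of `ℤ` of
finite length `len` by finitely generated projective `ℤ[H]`-modules, `PDS.OneEnded`: one end.
-/

namespace Pool.Agent.Results.MP_bbc3d7_al.NoetherianRepresentations

open PDS Function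

universe u v w

/-- `K` has a noetherian representation: there are a ring `Λ`, a noetherian left `Λ`-module `M` and an
injective ring homomorphism `ℤ[K] → End_Λ(M)` such that no infinite subgroup of `K` fixes a non-zero
element of `M`. -/
def HasNoethRep (K : Type u) [Group K] : Prop :=
  ∃ (Λ : Type v) (M : Type w) (_ : Ring Λ) (_ : AddCommGroup M) (_ : Module Λ M)
    (ρ : ZG K →+* Module.End Λ M), IsNoetherian Λ M ∧ Injective ρ ∧
    ∀ F : Subgroup K, Infinite F → ∀ m : M,
      (∀ k ∈ F, ρ (MonoidAlgebra.of ℤ K k) m = m) → m = 0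

private theorem noeth_of_embed (K : Type u) [Group K] (Λ : Type v) [Ring Λ] [IsNoetherianRing Λ]
    [NoZeroDivisors Λ] (τ : ZG K →+* Λ) (hτ : Injective τ) : HasNoethRep.{u, v, v} K := by
  refine ⟨Λ, Λ, inferInstance, inferInstance, inferInstance,
    { toFun := fun y => LinearMap.toSpanSingleton Λ Λ (τ (PDT.ivo y))
      map_one' := ?_
      map_mul' := ?_
      map_zero' := ?_
      map_add' := ?_ }, inferInstance, ?_, ?_⟩
  · rw [PDT.ivo_one, map_one]
    ext
    simp
  · intro x y
    rw [PDT.ivo_mul, map_mul]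
    ext
    simp
  · rw [map_zero, map_zero]
    ext
    simp
  · intro x y
    rw [map_add, map_add]
    ext
    simp [mul_add]
  · intro x y hxy
    have h1 := LinearMap.congr_fun hxy 1
    change LinearMap.toSpanSingleton Λ Λ (τ (PDT.ivo x)) 1 =
      LinearMap.toSpanSingleton Λ Λ (τ (PDT.ivo y)) 1 at h1
    simp only [LinearMap.toSpanSingleton_apply, one_smul] at h1
    have h2 := hτ h1
    rw [← PDT.ivo_ivo x, h2, PDT.ivo_ivo]
  · intro F hF m hm
    refine PDT.rmRep_inv τ hτ F hF m ?_
    intro k hk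
    exact (congrArg (fun z => m * τ z) (PDT.ivo_el k)).symm.trans (hm k hk)

private theorem actR_rep {K : Type u} [Group K] {Λ : Type v} {M : Type w} [Ring Λ] [AddCommGroup M]
    [Module Λ M] (ρ : ZG K →+* Module.End Λ M) (y : ZG K) :
    PDT.actR ((ρ : ZG K →* Module.End Λ M).comp (MonoidAlgebra.of ℤ K)) y = ρ (PDT.ivo y) := by
  have h : PDT.actR ((ρ : ZG K →* Module.End Λ M).comp (MonoidAlgebra.of ℤ K)) =
      (ρ : ZG K →+ Module.End Λ M).comp PDT.ivo := by
    apply PDT.zhom_ext
    intro a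
    rw [PDT.actR_el, AddMonoidHom.comp_apply, PDT.ivo_el]
    rfl
  exact DFunLike.congr_fun h y

theorem result :
    -- group rings which embed in left noetherian rings without zero divisors (e.g. skew fields)
    (∀ (K : Type u) [Group K] (Λ : Type v) [Ring Λ] [IsNoetherianRing Λ] [NoZeroDivisors Λ]
      (τ : ZG K →+* Λ), Injective τ → HasNoethRep.{u, v, v} K) ∧
    -- finitely generated subgroups of infinite index, with a noetherian representation of a
    -- subgroup of finite index: type FP, dimension at most 2, surface subgroups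
    (∀ (G : Type u) [Group G], IsPD 3 G → ∀ H : Subgroup G, H.FG → H.index = 0 →
      (∃ H0 : Subgroup H, H0.FiniteIndex ∧ HasNoethRep.{u, v, w} H0) →
      (∃ R : FPRes H, R.len ≤ 2) ∧ (OneEnded H → ∃ K : Subgroup G, K ≤ H ∧ IsPD 2 K)) ∧
    -- PD(3)-groups with such a representation: all finitely generated subgroups are of type FP
    (∀ (G : Type u) [Group G], IsPD 3 G →
      (∃ G0 : Subgroup G, G0.FiniteIndex ∧ HasNoethRep.{u, v, w} G0) →
      ∀ H : Subgroup G, H.FG → Nonempty (FPRes H)) := by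
  have key : ∀ (G : Type u) [Group G], IsPD 3 G → ∀ H : Subgroup G, H.FG → H.index = 0 →
      (∃ H0 : Subgroup H, H0.FiniteIndex ∧ HasNoethRep.{u, v, w} H0) →
      (∃ R : FPRes H, R.len ≤ 2) ∧ (OneEnded H → ∃ K : Subgroup G, K ≤ H ∧ IsPD 2 K) := by
    rintro G _ hG H hfg hidx ⟨H0, hH0, Λ, M, _, _, _, ρ, hM, hρ, hinv⟩
    have hG3 := PDT.isPD3_of (PDT.isPD_of hG)
    have hfaith : ∀ y : PDT.Zg H0,
        (∀ m, PDT.actR ((ρ : ZG H0 →* Module.End Λ M).comp (MonoidAlgebra.of ℤ H0)) y m = 0) →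
        y = 0 := by
      intro y hy
      have h1 : ρ (PDT.ivo y) = 0 := by
        rw [← actR_rep]
        exact LinearMap.ext hy
      have h2 : PDT.ivo y = 0 := hρ (by rw [h1, map_zero])
      rw [← PDT.ivo_ivo y, h2, map_zero]
    refine ⟨PDT.fpRes_of' (PDT.mainE hG3 H hfg hidx H0 hH0 _ hfaith hinv), fun hE => ?_⟩
    obtain ⟨K, hK, hPD⟩ := PDT.mainD_rep hG3 H hfg hidx H0 hH0 hE.1 _ hfaith hinv hE.2
    exact ⟨K, hK, PDT.of_isPD hPD⟩
  refine ⟨noeth_of_embed, key, ?_⟩
  rintro G _ hG ⟨G0, hG0, Λ, M, _, _, _, ρ, hM, hρ, hinv⟩ H hfg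
  refine PDT.fpRes_all hG H fun hidx => (key G hG H hfg hidx ?_).1
  obtain ⟨c, hc⟩ := PDT.exists_sub G0 H
  refine ⟨G0.subgroupOf H, inferInstance, Λ, M, inferInstance, inferInstance, inferInstance,
    ρ.comp (MonoidAlgebra.mapDomainRingHom ℤ c), hM, ?_, ?_⟩
  · exact hρ.comp (MonoidAlgebra.mapDomain_injective hc)
  · intro F hF m hm
    refine hinv (F.map c) ?_ m ?_
    · exact Infinite.of_injective (F.equivMapOfInjective c hc)
        (F.equivMapOfInjective c hc).injective
    · rintro _ ⟨k, hk, rfl⟩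
      have h1 := hm k hk
      have h2 : MonoidAlgebra.mapDomainRingHom ℤ c (MonoidAlgebra.of ℤ _ k) =
          MonoidAlgebra.of ℤ G0 (c k) := by
        change MonoidAlgebra.mapDomain c (MonoidAlgebra.single k 1) = MonoidAlgebra.single (c k) 1
        rw [MonoidAlgebra.mapDomain_single]
      rw [RingHom.comp_apply, h2] at h1
      exact h1

end Pool.Agent.Results.MP_bbc3d7_al.NoetherianRepresentations
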