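import Pool.Agent.Lib.PDT.Bridge2

/-!
# MP_bbc3d7_al: virtually residually `p` subgroups of PD(3)-groups

The definitions are in `PDT/Stmt`: `PDS.IsPD 3 G` is the definition of the problem (`G` is of type FP,
`H^i(G; ℤ[G]) = 0` for `i ≠ 3` and `H^3(G; ℤ[G]) ≅ ℤ`), `PDS.FPRes H` the type of resolutions of `ℤ` of
finite length `len` by finitely generated projective `ℤ[H]`-modules, `PDS.VirtuallyResP H`: for some
prime `p` a subgroup of finite index is residually a finite `p`-group, `PDS.OneEnded`: one end.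
-/

namespace Pool.Agent.Results.MP_bbc3d7_al.VirtuallyResiduallyP

open PDS Function

universe u v

theorem result :
    -- finitely generated subgroups of infinite index: type FP, dimension at most 2, infinite
    -- abelianization, surface subgroups
    (∀ (G : Type u) [Group G], IsPD 3 G → ∀ H : Subgroup G, H.FG → H.index = 0 →
      VirtuallyResP H →
      (∃ R : FPRes H, R.len ≤ 2) ∧ (Infinite H → Infinite (Abelianization H)) ∧
      (OneEnded H → ∃ K : Subgroup G, K ≤ H ∧ IsPD 2 K)) ∧
    -- all finitely generated subgroups of a virtually residually `p` PD(3)-group are of type FP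
    (∀ (G : Type u) [Group G], IsPD 3 G → VirtuallyResP G → ∀ H : Subgroup G, H.FG →
      Nonempty (FPRes H)) ∧
    -- finitely generated linear groups over arbitrary fields are virtually residually `p` (Malcev)
    (∀ (H : Type u) [Group H] (K : Type v) [Field K] (N : ℕ) (ρ : H →* GL (Fin N) K),
      Group.FG H → Injective ρ → VirtuallyResP H) := by
  have key : ∀ (G : Type u) [Group G], IsPD 3 G → ∀ H : Subgroup G, H.FG → H.index = 0 →
      VirtuallyResP H →
      (∃ R : FPRes H, R.len ≤ 2) ∧ (Infinite H → Infinite (Abelianization H)) ∧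
      (OneEnded H → ∃ K : Subgroup G, K ≤ H ∧ IsPD 2 K) := by
    intro G _ hG H hfg hidx ⟨p, H0, hp, hH0, hres⟩
    have hG3 := PDT.isPD3_of (PDT.isPD_of hG)
    have hr := PDT.resP_of hp hres
    obtain ⟨h1, h2⟩ := PDT.mainC hG3 H hfg hidx p hp H0 hH0 hr
    refine ⟨PDT.fpRes_of' h1, h2, fun hE => ?_⟩
    obtain ⟨K, hK, hPD⟩ := PDT.mainD hG3 H hfg hidx p hp H0 hH0 hr hE.1 hE.2
    exact ⟨K, hK, PDT.of_isPD hPD⟩
  refine ⟨key, ?_, ?_⟩
  · intro G _ hG hV H hfg
    exact PDT.fpRes_all hG H fun hidx => (key G hG H hfg hidx (PDT.virtResP_sub hV H)).1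
  · intro H _ K _ N ρ hfg hρ
    obtain ⟨p, H0, hp, hH0, hres⟩ := PDT.lin_res hfg N ρ hρ
    exact ⟨p, H0, hp, hH0, PDT.of_resP hp hres⟩

end Pool.Agent.Results.MP_bbc3d7_al.VirtuallyResiduallyP
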